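import Mathlib
import Pool.Agent.Q103.SD.Split

/-!
# Hall's inequality with its original exponent and constant `1` for all products of powers of
integers from a short interval

The bases are integers of the interval `[t, t + t ^ δ]`, or more generally numbers with small digits
(of either sign) in base `t` and first digit `1` or `-1`; `x` and `y` are products of powers of the
bases (with small coefficients), and all exponents are allowed.
-/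

set_option autoImplicit false

namespace Pool.Agent.Results.MP_f2148a_nt.AllExponents

open Polynomial Finset Filter

/-- The bases `F_i(t)`, `i < n`, are the values at `t` of nonconstant polynomials with coefficients
(digits) of absolute value at most `H` and first digit (leading coefficient) `1` or `-1`, of total
degree at most `K`. -/
structure Bases (K : ℕ) (H : ℝ) {n : ℕ} (F : Fin n → ℤ[X]) : Prop where
  pos : ∀ i, 0 < (F i).natDegree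
  deg : ∑ i, (F i).natDegree ≤ K
  digits : ∀ i j, |((F i).coeff j : ℝ)| ≤ H
  first : ∀ i, (F i).leadingCoeff = 1 ∨ (F i).leadingCoeff = -1

theorem used_le {n : ℕ} (q : Fin n → ℤ) (b c : Fin n → ℕ) {x y ξ η : ℤ}
    (hx0 : x ≠ 0) (hy0 : y ≠ 0) (hx : x = ξ * ∏ i, q i ^ b i) (hy : y = η * ∏ i, q i ^ c i) :
    |((∏ i ∈ Pool.Agent.Q103.SD.used2 b c, q i : ℤ) : ℝ)| ≤ |(x : ℝ)| * |(y : ℝ)| := by
  have h1 : |∏ i ∈ Pool.Agent.Q103.SD.used2 b c, q i| ≤ |x| * |y| := by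
    rw [← abs_mul]
    have h2 : ∏ i ∈ Pool.Agent.Q103.SD.used2 b c, q i ∣ x * y := by
      have h3 : ∏ i ∈ Pool.Agent.Q103.SD.used2 b c, q i ∣
          (∏ i, q i ^ b i) * ∏ i, q i ^ c i := by
        rw [← Finset.prod_mul_distrib]
        refine dvd_trans ?_ (Finset.prod_dvd_prod_of_subset (Pool.Agent.Q103.SD.used2 b c)
          Finset.univ _ (Finset.subset_univ _))
        apply Finset.prod_dvd_prod_of_dvd
        intro i hi
        rcases (Finset.mem_filter.mp hi).2 with h | h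
        · exact (dvd_pow_self _ h).mul_right _
        · exact (dvd_pow_self _ h).mul_left _
      refine h3.trans ?_
      rw [hx, hy]
      exact mul_dvd_mul (Dvd.intro_left _ rfl) (Dvd.intro_left _ rfl)
    exact Int.le_of_dvd (abs_pos.mpr (mul_ne_zero hx0 hy0)) ((abs_dvd_abs _ _).mpr h2)
  exact_mod_cast h1

/-- `x` and `y` are composed of the bases, with small coefficients `ξ`, `η` and exponents `b`, `c` -/
structure Composed (H : ℝ) (t : ℕ) {n : ℕ} (F : Fin n → ℤ[X]) (ξ η : ℤ) (b c : Fin n → ℕ)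
    (x y : ℤ) : Prop where
  ξH : |(ξ : ℝ)| ≤ H
  ηH : |(η : ℝ)| ≤ H
  nontrivial : ∃ i, b i ≠ 0 ∨ c i ≠ 0
  x_ne : x ≠ 0
  y_ne : y ≠ 0
  x_eq : x = ξ * ∏ i, (F i).eval (t : ℤ) ^ b i
  y_eq : y = η * ∏ i, (F i).eval (t : ℤ) ^ c i

/-- the larger one of `|x| ^ r` and `|y| ^ s` -/
noncomputable def larger (r s : ℕ) (x y : ℤ) : ℝ := max (|(x : ℝ)| ^ r) (|(y : ℝ)| ^ s)

theorem pow_split {M : ℝ} (hM : 0 < M) {r s : ℕ} :
    M ^ (1 - 1 / (r : ℝ) - 1 / (s : ℝ)) * M ^ (1 / (r : ℝ) + 1 / (s : ℝ)) = M := by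
  rw [← Real.rpow_add hM]
  have : 1 - 1 / (r : ℝ) - 1 / (s : ℝ) + (1 / (r : ℝ) + 1 / (s : ℝ)) = 1 := by ring
  rw [this, Real.rpow_one]

theorem root_le {M z : ℝ} (hz : 0 ≤ z) {r : ℕ} (hr : 0 < r) (h : z ^ r ≤ M) :
    z ≤ M ^ (1 / (r : ℝ)) := by
  have hr0 : (r : ℝ) ≠ 0 := by exact_mod_cast hr.ne'
  calc z = (z ^ r) ^ (1 / (r : ℝ)) := by
        rw [← Real.rpow_natCast, ← Real.rpow_mul hz, mul_one_div_cancel hr0, Real.rpow_one]
    _ ≤ _ := Real.rpow_le_rpow (by positivity) h (by positivity)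

/-- **All exponents.** -/
theorem main (K : ℕ) (ε : ℝ) (hε : 0 < ε) : ∃ δ : ℝ, 0 < δ ∧ ∃ t₀ : ℕ, 64 ≤ t₀ ∧ ∀ t : ℕ, t₀ ≤ t →
    ∀ (n : ℕ) (F : Fin n → ℤ[X]), Bases K ((t : ℝ) ^ δ) F →
    ∀ (ξ η : ℤ) (b c : Fin n → ℕ) (x y : ℤ), Composed ((t : ℝ) ^ δ) t F ξ η b c x y →
    ∀ r s : ℕ, 1 ≤ r → r ≤ K → 1 ≤ s → s ≤ K → 1 ≤ larger r s x y ∧ (x ^ r ≠ y ^ s →
      larger r s x y ^ (1 - 1 / (r : ℝ) - 1 / (s : ℝ)) * (t : ℝ) ^ (1 - ε) ≤
        |((y ^ s - x ^ r : ℤ) : ℝ)| ∧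
      ((∀ i, (F i).coeff 0 = 1 ∨ (F i).coeff 0 = -1) → ∀ p v : ℕ, p.Prime → t = p ^ v →
        ∀ (m : ℕ) (w : ℤ), y ^ s - x ^ r = (p : ℤ) ^ m * w →
          larger r s x y ^ (1 - 1 / (r : ℝ) - 1 / (s : ℝ)) ≤ (t : ℝ) ^ ε * |(w : ℝ)|)) := by
  obtain ⟨ε₁, hε₁⟩ : ∃ ε₁, ε₁ = min ε (1 / ((K : ℝ) + 1)) := ⟨_, rfl⟩
  have hε₁0 : 0 < ε₁ := by rw [hε₁]; exact lt_min hε (by positivity)
  have hε₁ε : ε₁ ≤ ε := by rw [hε₁]; exact min_le_left _ _
  have hε₁K : ε₁ * (K + 1) ≤ 1 := by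
    have h1 : ε₁ ≤ 1 / ((K : ℝ) + 1) := by rw [hε₁]; exact min_le_right _ _
    rwa [le_div_iff₀ (by positivity)] at h1
  obtain ⟨δ₁, hδ₁, hδ₁', t₁, ht₁, h⟩ := Pool.Agent.Q103.SD.split_top K ε₁ hε₁0
  obtain ⟨δ₂, hδ₂, hδ₂', t₂, ht₂, h'⟩ := Pool.Agent.Q103.SD.split_base K ε₁ hε₁0
  obtain ⟨δ, hδe⟩ : ∃ δ, δ = min δ₁ δ₂ / (K + 1) := ⟨_, rfl⟩
  have hK1 : (0 : ℝ) < (K : ℝ) + 1 := by positivity
  have hδ0 : 0 < δ := by rw [hδe]; exact div_pos (lt_min hδ₁ hδ₂) hK1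
  have hδK : δ * (K + 1) = min δ₁ δ₂ := by
    rw [hδe]
    field_simp
  have hδδ₁ : δ * (K + 1) ≤ δ₁ := by rw [hδK]; exact min_le_left _ _
  have hδδ₂ : δ * (K + 1) ≤ δ₂ := by rw [hδK]; exact min_le_right _ _
  refine ⟨δ, hδ0, max t₁ t₂, ht₁.trans (le_max_left _ _), ?_⟩
  intro t ht n F hS ξ η b c x y hC r s hr hrK hs hsK
  have htt₁ : t₁ ≤ t := (le_max_left _ _).trans ht
  have htt₂ : t₂ ≤ t := (le_max_right _ _).trans ht
  have htR : (64 : ℝ) ≤ t := by exact_mod_cast ht₁.trans htt₁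
  have ht0 : (0 : ℝ) < t := by linarith
  have hx0 := hC.x_ne
  have hy0 := hC.y_ne
  have hξ0 : ξ ≠ 0 := by rintro rfl; rw [hC.x_eq, zero_mul] at hx0; exact hx0 rfl
  have hη0 : η ≠ 0 := by rintro rfl; rw [hC.y_eq, zero_mul] at hy0; exact hy0 rfl
  have hx1 : (1 : ℝ) ≤ |(x : ℝ)| := by exact_mod_cast Int.one_le_abs hx0
  have hy1 : (1 : ℝ) ≤ |(y : ℝ)| := by exact_mod_cast Int.one_le_abs hy0
  obtain ⟨M, hM⟩ : ∃ M : ℝ, M = larger r s x y := ⟨_, rfl⟩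
  have hM1 : 1 ≤ M := by
    rw [hM]
    exact (one_le_pow₀ hx1).trans (le_max_left _ _)
  have hM0 : 0 < M := by linarith
  rw [← hM]
  refine ⟨hM1, ?_⟩
  intro hne
  have hT : ∀ δ', δ * (K + 1) ≤ δ' → (t : ℝ) ^ δ ≤ (t : ℝ) ^ δ' := fun δ' h3 => by
    apply Real.rpow_le_rpow_of_exponent_le (by linarith)
    have : (0 : ℝ) ≤ K := Nat.cast_nonneg _
    nlinarith
  have hT3 : ∀ (δ' : ℝ) (z : ℤ) (k : ℕ), δ * (K + 1) ≤ δ' → k ≤ K → |(z : ℝ)| ≤ (t : ℝ) ^ δ →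
      |((z ^ k : ℤ) : ℝ)| ≤ (t : ℝ) ^ δ' := by
    intro δ' z k h3 hk hz
    push_cast
    rw [abs_pow]
    calc |(z : ℝ)| ^ k ≤ ((t : ℝ) ^ δ) ^ k := pow_le_pow_left₀ (abs_nonneg _) hz k
      _ = (t : ℝ) ^ (δ * k) := by rw [Real.rpow_mul_natCast ht0.le]
      _ ≤ _ := by
          apply Real.rpow_le_rpow_of_exponent_le (by linarith)
          have : (k : ℝ) ≤ K := by exact_mod_cast hk
          nlinarith
  have hxr : x ^ r = ξ ^ r * ∏ i, (F i).eval (t : ℤ) ^ (r * b i) := by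
    rw [hC.x_eq, mul_pow, ← Finset.prod_pow]
    congr 1
    apply Finset.prod_congr rfl
    intro i _
    rw [← pow_mul, mul_comm]
  have hys : y ^ s = η ^ s * ∏ i, (F i).eval (t : ℤ) ^ (s * c i) := by
    rw [hC.y_eq, mul_pow, ← Finset.prod_pow]
    congr 1
    apply Finset.prod_congr rfl
    intro i _
    rw [← pow_mul, mul_comm]
  have hused : Pool.Agent.Q103.SD.used2 (fun i => r * b i) (fun i => s * c i) =
      Pool.Agent.Q103.SD.used2 b c := by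
    ext i
    simp only [Pool.Agent.Q103.SD.used2, Finset.mem_filter, Finset.mem_univ, true_and, Ne,
      Nat.mul_eq_zero, not_or]
    constructor
    · rintro (h | h)
      · exact Or.inl h.2
      · exact Or.inr h.2
    · rintro (h | h)
      · exact Or.inl ⟨by omega, h⟩
      · exact Or.inr ⟨by omega, h⟩
  have hU : (Pool.Agent.Q103.SD.used2 b c).Nonempty := by
    obtain ⟨i, hi⟩ := hC.nontrivial
    exact ⟨i, Finset.mem_filter.mpr ⟨Finset.mem_univ _, hi⟩⟩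
  obtain ⟨Q, hQ⟩ : ∃ Q : ℝ,
      Q = |((∏ i ∈ Pool.Agent.Q103.SD.used2 b c, (F i).eval (t : ℤ) : ℤ) : ℝ)| := ⟨_, rfl⟩
  have hQxy : Q ≤ |(x : ℝ)| * |(y : ℝ)| := by
    rw [hQ]
    exact used_le _ b c hx0 hy0 hC.x_eq hC.y_eq
  have hM2 : M = max |((η ^ s * ∏ i, (F i).eval (t : ℤ) ^ (s * c i) : ℤ) : ℝ)|
      |((ξ ^ r * ∏ i, (F i).eval (t : ℤ) ^ (r * b i) : ℤ) : ℝ)| := by
    rw [← hxr, ← hys, hM, max_comm]
    unfold larger
    push_cast
    rw [abs_pow, abs_pow]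
  have hxM : |(x : ℝ)| ^ r ≤ M := by rw [hM]; exact le_max_left _ _
  have hyM : |(y : ℝ)| ^ s ≤ M := by rw [hM]; exact le_max_right _ _
  have hQM : Q ≤ M ^ (1 / (r : ℝ) + 1 / (s : ℝ)) := by
    refine hQxy.trans ?_
    rw [Real.rpow_add hM0]
    exact mul_le_mul (root_le (abs_nonneg _) hr hxM) (root_le (abs_nonneg _) hs hyM)
      (abs_nonneg _) (by positivity)
  have hrs : 2 * ε₁ ≤ 1 / (r : ℝ) + 1 / (s : ℝ) := by
    have e1 : ∀ k : ℕ, 1 ≤ k → k ≤ K → ε₁ ≤ 1 / (k : ℝ) := by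
      intro k hk1 hkK
      have hk0 : (0 : ℝ) < k := by exact_mod_cast hk1
      have hkK' : (k : ℝ) ≤ K := by exact_mod_cast hkK
      rw [le_div_iff₀ hk0]
      nlinarith
    have := e1 r hr hrK
    have := e1 s hs hsK
    linarith
  obtain ⟨P, hP⟩ : ∃ P, P = M ^ (1 - 1 / (r : ℝ) - 1 / (s : ℝ)) := ⟨_, rfl⟩
  obtain ⟨R, hR⟩ : ∃ R, R = M ^ (1 / (r : ℝ) + 1 / (s : ℝ)) := ⟨_, rfl⟩
  have hPR : P * R = M := by rw [hP, hR]; exact pow_split hM0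
  have hP0 : 0 < P := by rw [hP]; positivity
  have hR0 : 0 < R := by rw [hR]; positivity
  rw [← hR] at hQM
  rw [← hP]
  have hd : y ^ s - x ^ r ≠ 0 := fun h0 => hne (by linarith)
  have hε1t : (t : ℝ) ^ (1 - ε) ≤ (t : ℝ) ^ (1 - ε₁) :=
    Real.rpow_le_rpow_of_exponent_le (by linarith) (by linarith)
  have hbig : P * M ^ ε₁ ≤ M ^ (1 - ε₁) := by
    rw [hP, ← Real.rpow_add hM0]
    exact Real.rpow_le_rpow_of_exponent_le hM1 (by linarith)
  constructor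
  · obtain ⟨-, hmain⟩ := h t htt₁ n F (ξ ^ r) (η ^ s)
      ⟨hS.pos, hS.deg, fun i j => (hS.digits i j).trans (hT _ hδδ₁), hS.first, pow_ne_zero _ hξ0,
        pow_ne_zero _ hη0, hT3 _ ξ r hδδ₁ hrK hC.ξH, hT3 _ η s hδδ₁ hsK hC.ηH⟩
      (fun i => r * b i) (fun i => s * c i) (by rw [hused]; exact hU) _ hd
      (by rw [← hxr, ← hys]) M hM2
    rw [hused, ← hQ] at hmain
    refine (mul_le_mul_of_nonneg_left hε1t hP0.le).trans ?_
    rcases hmain with h1 | ⟨h1, h2⟩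
    · have h3 : (P * (t : ℝ) ^ (1 - ε₁)) * R ≤ |((y ^ s - x ^ r : ℤ) : ℝ)| * R := by
        calc (P * (t : ℝ) ^ (1 - ε₁)) * R = (P * R) * (t : ℝ) ^ (1 - ε₁) := by ring
          _ = M * (t : ℝ) ^ (1 - ε₁) := by rw [hPR]
          _ ≤ |((y ^ s - x ^ r : ℤ) : ℝ)| * Q := h1
          _ ≤ _ := mul_le_mul_of_nonneg_left hQM (abs_nonneg _)
      exact le_of_mul_le_mul_right h3 hR0
    · refine le_trans ?_ h1
      refine le_trans (mul_le_mul_of_nonneg_left ?_ hP0.le) hbig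
      refine le_trans ?_ h2
      calc (t : ℝ) ^ (1 - ε₁) ≤ (t : ℝ) ^ (1 : ℝ) :=
            Real.rpow_le_rpow_of_exponent_le (by linarith) (by linarith)
        _ = t := Real.rpow_one _
  · intro hlast p v hp htp m w hdw
    have hw : w ≠ 0 := by
      rintro rfl
      rw [mul_zero] at hdw
      exact hd hdw
    have hmain := h' p v t hp htp htt₂ n F (ξ ^ r) (η ^ s)
      ⟨hS.pos, hS.deg, fun i j => (hS.digits i j).trans (hT _ hδδ₂), hlast, hS.first,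
        pow_ne_zero _ hξ0, pow_ne_zero _ hη0, hT3 _ ξ r hδδ₂ hrK hC.ξH,
        hT3 _ η s hδδ₂ hsK hC.ηH⟩
      (fun i => r * b i) (fun i => s * c i) (by rw [hused]; exact hU) m w hw
      (by rw [← hxr, ← hys, ← hdw]) M hM2
    rw [hused, ← hQ] at hmain
    have hte : (t : ℝ) ^ ε₁ ≤ (t : ℝ) ^ ε := Real.rpow_le_rpow_of_exponent_le (by linarith) hε₁ε
    have hte1 : 1 ≤ (t : ℝ) ^ ε := Real.one_le_rpow (by linarith) hε.le
    rcases hmain with h1 | ⟨h1, h2⟩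
    · have h3 : P * R ≤ ((t : ℝ) ^ ε₁ * |(w : ℝ)|) * R := by
        rw [hPR]
        calc M ≤ (t : ℝ) ^ ε₁ * (|(w : ℝ)| * Q) := h1
          _ ≤ (t : ℝ) ^ ε₁ * (|(w : ℝ)| * R) := by
              apply mul_le_mul_of_nonneg_left _ (by positivity)
              exact mul_le_mul_of_nonneg_left hQM (abs_nonneg _)
          _ = _ := by ring
      refine (le_of_mul_le_mul_right h3 hR0).trans ?_
      exact mul_le_mul_of_nonneg_right hte (abs_nonneg _)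
    · have h3 : P ≤ M ^ (1 - ε₁) := by
        refine le_trans ?_ hbig
        exact le_mul_of_one_le_right hP0.le (Real.one_le_rpow hM1 hε₁0.le)
      exact (h3.trans h1).trans (le_mul_of_one_le_left (abs_nonneg _) hte1)

/-- **Hall's inequality** `max (|x|, |y|) ≤ |k| ^ 3`, with almost `t ^ 3` to spare, for all products
of powers of numbers with small digits in base `t`, and the same inequality, up to `t ^ ε`, for the
part `w` of `k` prime to `p` if `t` is a power of `p`. -/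
theorem result (K : ℕ) (ε : ℝ) (hε : 0 < ε) : ∃ δ : ℝ, 0 < δ ∧ ∃ t₀ : ℕ, ∀ t : ℕ, t₀ ≤ t →
    ∀ (n : ℕ) (F : Fin n → ℤ[X]), Bases K ((t : ℝ) ^ δ) F →
    ∀ (ξ η : ℤ) (b c : Fin n → ℕ) (x y : ℤ), Composed ((t : ℝ) ^ δ) t F ξ η b c x y →
      (∀ k : ℤ, k ≠ 0 → y ^ 2 = x ^ 3 + k →
        max |(x : ℝ)| |(y : ℝ)| * (t : ℝ) ^ (3 - ε) ≤ |(k : ℝ)| ^ 3 ∧
        |(x : ℝ)| * (t : ℝ) ^ (2 - ε) ≤ |(k : ℝ)| ^ 2 ∧
        ((∀ i, (F i).coeff 0 = 1 ∨ (F i).coeff 0 = -1) → ∀ p v : ℕ, p.Prime → t = p ^ v →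
          ∀ (m : ℕ) (w : ℤ), k = (p : ℤ) ^ m * w →
            max |(x : ℝ)| |(y : ℝ)| ≤ (t : ℝ) ^ ε * |(w : ℝ)| ^ 3 ∧
            |(x : ℝ)| ≤ (t : ℝ) ^ ε * |(w : ℝ)| ^ 2)) ∧
      ∀ r s : ℕ, 1 ≤ r → r ≤ K → 1 ≤ s → s ≤ K → x ^ r ≠ y ^ s →
        larger r s x y ^ (1 - 1 / (r : ℝ) - 1 / (s : ℝ)) * (t : ℝ) ^ (1 - ε) ≤
          |((y ^ s - x ^ r : ℤ) : ℝ)| ∧
        ((∀ i, (F i).coeff 0 = 1 ∨ (F i).coeff 0 = -1) → ∀ p v : ℕ, p.Prime → t = p ^ v →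
          ∀ (m : ℕ) (w : ℤ), y ^ s - x ^ r = (p : ℤ) ^ m * w →
            larger r s x y ^ (1 - 1 / (r : ℝ) - 1 / (s : ℝ)) ≤ (t : ℝ) ^ ε * |(w : ℝ)|) := by
  obtain ⟨δ, hδ, t₀, ht₀, h⟩ := main (K + 3) (ε / 3) (by positivity)
  refine ⟨δ, hδ, t₀, ?_⟩
  intro t ht n F hS ξ η b c x y hC
  have hS' : Bases (K + 3) ((t : ℝ) ^ δ) F := ⟨hS.pos, hS.deg.trans (by omega), hS.digits, hS.first⟩
  have hm := h t ht n F hS' ξ η b c x y hC
  have htR : (64 : ℝ) ≤ t := by exact_mod_cast ht₀.trans ht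
  have ht0 : (0 : ℝ) < t := by linarith
  constructor
  · intro k hk heq
    obtain ⟨hM1, hmm⟩ := hm 3 2 (by norm_num) (by omega) (by norm_num) (by omega)
    have hyx : y ^ 2 - x ^ 3 = k := by rw [heq]; ring
    obtain ⟨g1, g2⟩ := hmm (fun h0 => hk (by rw [← hyx, h0]; ring))
    obtain ⟨M, hM⟩ : ∃ M : ℝ, M = larger 3 2 x y := ⟨_, rfl⟩
    rw [← hM] at g1 g2 hM1
    have hM0 : 0 < M := by linarith
    have hexp : (1 : ℝ) - 1 / ((3 : ℕ) : ℝ) - 1 / ((2 : ℕ) : ℝ) = 1 / 6 := by norm_num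
    rw [hexp] at g1 g2
    rw [hyx] at g1
    have hxM : |(x : ℝ)| ^ 3 ≤ M := by rw [hM]; exact le_max_left _ _
    have hyM : |(y : ℝ)| ^ 2 ≤ M := by rw [hM]; exact le_max_right _ _
    obtain ⟨Z, hZ⟩ : ∃ Z : ℝ, Z = M ^ (1 / 6 : ℝ) := ⟨_, rfl⟩
    have hZ0 : 0 < Z := by rw [hZ]; positivity
    have hZ6 : Z ^ 6 = M := by
      rw [hZ, ← Real.rpow_natCast, ← Real.rpow_mul hM0.le]
      norm_num
    have hZ1 : 1 ≤ Z := by rw [hZ]; exact Real.one_le_rpow hM1 (by norm_num)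
    rw [← hZ] at g1 g2
    have hxZ : |(x : ℝ)| ≤ Z ^ 2 := by
      have h1 : |(x : ℝ)| ^ 3 ≤ (Z ^ 2) ^ 3 := by
        rw [← pow_mul]
        norm_num
        rw [hZ6]
        exact hxM
      exact le_of_pow_le_pow_left₀ (by norm_num) (by positivity) h1
    have hyZ : |(y : ℝ)| ≤ Z ^ 3 := by
      have h1 : |(y : ℝ)| ^ 2 ≤ (Z ^ 3) ^ 2 := by
        have e1 : (Z ^ 3) ^ 2 = M := by rw [← hZ6]; ring
        rw [e1]
        exact hyM
      exact le_of_pow_le_pow_left₀ (by norm_num) (by positivity) h1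
    have hmax : max |(x : ℝ)| |(y : ℝ)| ≤ Z ^ 3 :=
      max_le (hxZ.trans (pow_le_pow_right₀ hZ1 (by norm_num))) hyZ
    obtain ⟨τ, hτ⟩ : ∃ τ : ℝ, τ = (t : ℝ) ^ (1 - ε / 3) := ⟨_, rfl⟩
    have hτ0 : 0 < τ := by rw [hτ]; positivity
    have hτ3 : τ ^ 3 = (t : ℝ) ^ (3 - ε) := by
      rw [hτ, ← Real.rpow_mul_natCast ht0.le]
      congr 1
      push_cast
      ring
    have hτ2 : (t : ℝ) ^ (2 - ε) ≤ τ ^ 2 := by
      rw [hτ, ← Real.rpow_mul_natCast ht0.le]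
      apply Real.rpow_le_rpow_of_exponent_le (by linarith)
      push_cast
      linarith
    rw [← hτ] at g1
    refine ⟨?_, ?_, ?_⟩
    · rw [← hτ3]
      calc max |(x : ℝ)| |(y : ℝ)| * τ ^ 3 ≤ Z ^ 3 * τ ^ 3 :=
            mul_le_mul_of_nonneg_right hmax (by positivity)
        _ = (Z * τ) ^ 3 := by ring
        _ ≤ _ := pow_le_pow_left₀ (by positivity) g1 3
    · calc |(x : ℝ)| * (t : ℝ) ^ (2 - ε) ≤ Z ^ 2 * τ ^ 2 :=
            mul_le_mul hxZ hτ2 (by positivity) (by positivity)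
        _ = (Z * τ) ^ 2 := by ring
        _ ≤ _ := pow_le_pow_left₀ (by positivity) g1 2
    · intro hlast p v hp htp m w hkw
      have g3 := g2 hlast p v hp htp m w (by rw [hyx, hkw])
      have hpow : ∀ j : ℕ, j ≤ 3 → Z ^ j ≤ (t : ℝ) ^ ε * |(w : ℝ)| ^ j := by
        intro j hj
        calc Z ^ j ≤ ((t : ℝ) ^ (ε / 3) * |(w : ℝ)|) ^ j := pow_le_pow_left₀ hZ0.le g3 j
          _ = ((t : ℝ) ^ (ε / 3)) ^ j * |(w : ℝ)| ^ j := by rw [mul_pow]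
          _ ≤ _ := by
              apply mul_le_mul_of_nonneg_right _ (by positivity)
              rw [← Real.rpow_mul_natCast ht0.le]
              apply Real.rpow_le_rpow_of_exponent_le (by linarith)
              have : (j : ℝ) ≤ 3 := by exact_mod_cast hj
              nlinarith
      exact ⟨hmax.trans (hpow 3 le_rfl), hxZ.trans (hpow 2 (by norm_num))⟩
  · intro r s hr hrK hs hsK hne
    obtain ⟨-, hmm⟩ := hm r s hr (by omega) hs (by omega)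
    obtain ⟨g1, g2⟩ := hmm hne
    have hM1 : 1 ≤ larger r s x y := (hm r s hr (by omega) hs (by omega)).1
    constructor
    · refine le_trans (mul_le_mul_of_nonneg_left ?_ (by positivity)) g1
      exact Real.rpow_le_rpow_of_exponent_le (by linarith) (by linarith)
    · intro hlast p v hp htp m w hw
      refine (g2 hlast p v hp htp m w hw).trans ?_
      apply mul_le_mul_of_nonneg_right _ (abs_nonneg _)
      exact Real.rpow_le_rpow_of_exponent_le (by linarith) (by linarith)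

end Pool.Agent.Results.MP_f2148a_nt.AllExponents
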