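import Pool.Agent.Q138.PS.TW
import Pool.Agent.Q138.PS.UP
import Pool.Agent.Results.MP_f2148a_nt.AlmostAllK

/-!
# Mordell's equation for `k = ± ⌊α P(n)⌋`

Let `q ≥ 2`. Outside a set of real numbers of Hausdorff dimension at most `q / (q + 1 / (q 2 ^ (q - 1)))` (that is `8 / 9` for
`q = 2`) every `α > 0` has the following property. There is `η > 0` such that for all large `N` and ALL integral polynomials `P`
of degree `q` with positive leading coefficient and coefficients of size at most `N ^ η`, for all but `N ^ (1 - η)` of the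
`n ≤ N`, neither of the equations `y ^ 2 = x ^ 3 + k`, `k = ± ⌊α P(n)⌋ ≠ 0`, has an integral solution with
`|x| ≤ exp (|k| ^ (1 / 10000))`.
-/

set_option autoImplicit false

namespace Pool.Agent.Results.MP_f2148a_nt.AlongRealMultiples

open Finset Filter Topology
open Pool.Agent.Q138.PS

/-- `k ≠ 0` and `y ^ 2 = x ^ 3 + k` has an integral solution with `|x| ≤ exp (|k| ^ (1 / 10000))` -/
def Bad (k : ℤ) : Prop :=
  k ≠ 0 ∧ ∃ x y : ℤ, y ^ 2 = x ^ 3 + k ∧ |(x : ℝ)| ≤ Real.exp (|(k : ℝ)| ^ ((1 : ℝ) / 10000))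

open Classical in
/-- the number of the `1 ≤ n ≤ N` for which `⌊α P(n)⌋` or `-⌊α P(n)⌋` is `Bad` -/
noncomputable def bad (α : ℝ) (P : Polynomial ℤ) (N : ℕ) : ℕ :=
  ((Icc 1 N).filter fun n : ℕ => Bad (⌊α * ((P.eval (n : ℤ) : ℤ) : ℝ)⌋₊ : ℤ) ∨
    Bad (-(⌊α * ((P.eval (n : ℤ) : ℤ) : ℝ)⌋₊ : ℤ))).card

theorem bad_eq (α : ℝ) (P : Polynomial ℤ) (N : ℕ) :
    (bad α P N : ℝ) = cnP (fun n : ℕ => Bad n ∨ Bad (-(n : ℤ))) α P N := by
  classical
  unfold bad cnP cn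
  refine congrArg _ (congrArg _ ?_)
  ext n
  simp only [mem_filter]

theorem few : ∃ C : ℝ, ∀ Y : ℕ, 3 ≤ Y →
    cn (fun n : ℕ => Bad n ∨ Bad (-(n : ℤ))) Y ≤ C * (Y : ℝ) ^ (1 - (1 / 100 : ℝ)) := by
  classical
  obtain ⟨M, hM⟩ := Pool.Agent.Results.MP_f2148a_nt.AlmostAllK.result
  refine ⟨M, fun Y hY => ?_⟩
  have hY1 : (1 : ℝ) ≤ Y := by exact_mod_cast (by omega : 1 ≤ Y)
  refine (two_sides Bad Y).trans ?_
  have h1 := hM Y hY1
  rw [show (1 - (1 / 100 : ℝ)) = 99 / 100 by norm_num]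
  refine le_trans ?_ h1
  rw [← Set.ncard_coe_finset]
  refine Nat.cast_le.2 (Set.ncard_le_ncard ?_ ?_)
  · intro k hk
    rw [Finset.mem_coe, mem_filter, mem_Icc] at hk
    obtain ⟨⟨h2, h3⟩, h4, x, y, h5, h6⟩ := hk
    have h7 : |(k : ℝ)| ≤ Y := by
      rw [abs_le]
      constructor
      · exact_mod_cast h2
      · exact_mod_cast h3
    refine ⟨h4, h7, x, y, h5, h6.trans ?_⟩
    refine Real.exp_le_exp.2 (Real.rpow_le_rpow (abs_nonneg _) h7 (by norm_num))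
  · refine (Set.finite_Icc (-(Y : ℤ)) Y).subset ?_
    intro k hk
    have h7 := abs_le.1 hk.2.1
    rw [Set.mem_Icc]
    constructor
    · exact_mod_cast h7.1
    · exact_mod_cast h7.2

/-- **Theorem.** -/
theorem result (q : ℕ) (hq : 2 ≤ q) :
    ∃ E : Set ℝ, dimH E ≤ ENNReal.ofReal (q / (q + 1 / ((q : ℝ) * 2 ^ (q - 1)))) ∧ ∀ α : ℝ, 0 < α → α ∉ E →
      ∃ η : ℝ, 0 < η ∧ ∀ᶠ N : ℕ in atTop, ∀ P : Polynomial ℤ, P.natDegree = q →
        0 < P.leadingCoeff → (∀ j, |((P.coeff j : ℤ) : ℝ)| ≤ (N : ℝ) ^ η) → (bad α P N : ℝ) ≤ (N : ℝ) ^ (1 - η) := by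
  classical
  obtain ⟨E, hE, hg⟩ := exc_nat (ι := Unit) q hq (fun _ => fun n : ℕ => Bad n ∨ Bad (-(n : ℤ)))
  refine ⟨E, hE, fun α hα hαE => ?_⟩
  obtain ⟨η, hη, -, -, h2⟩ := hg α hα hαE ()
  obtain ⟨C, hC⟩ := few
  have h3 := h2 (1 / 100) C (by norm_num) (by norm_num) hC
  have h4 : 0 < min ((1 / 100 : ℝ) / 4) (η / 2) := lt_min (by norm_num) (by positivity)
  have h5 : min ((1 / 100 : ℝ) / 4) (η / 2) ≤ η := (min_le_right _ _).trans (by linarith)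
  refine ⟨min ((1 / 100 : ℝ) / 4) (η / 2), h4, ?_⟩
  filter_upwards [h3, eventually_ge_atTop 1] with N hN hN1
  intro P hdeg hlead hco
  have hN1r : (1 : ℝ) ≤ N := by exact_mod_cast hN1
  rw [bad_eq]
  exact hN P hdeg hlead fun j => (hco j).trans (Real.rpow_le_rpow_of_exponent_le hN1r h5)

end Pool.Agent.Results.MP_f2148a_nt.AlongRealMultiples
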