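import Mathlib
import Pool.Agent.Q29.SE.Hall

/-!
# Hall's conjecture for sums of power products with growing exponents and coefficients

Let `x` and `y` be integers of the form

  `x = ∑_{l ≤ r} u_l t^(m_l) ∏_i F_i(t)^(e_il)`,  `y = ∑_{l ≤ r} w_l t^(m_l) ∏_i F_i(t)^(e_il)`

with polynomials `F_i` (any number of them, of total degree at most `D`) with leading coefficients
`± 1`. The coefficients of the `F_i` and the `u_l`, `w_l` are at most `H`, `∑_i e_il ≤ N`, the `m_l`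
are arbitrary.  If `t` is at least a power of `H N` (with an exponent which depends only on `r` and
`D`) and `k = y ^ 2 - x ^ 3` is not zero, then either `x` and `y` are smaller than that power of
`H N`, or `|x| t ≤ k ^ 2` and `|y| t ^ 2 ≤ |k| ^ 3`. So Hall's conjecture is true for these `x`, `y`
with `C = 1`, and even with a power of `t` to spare. The same for `k = x ^ n - y ^ m`.
-/

set_option autoImplicit false

namespace Pool.Agent.Results.MP_f2148a_nt.PowerSums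

open Polynomial

/-- `x` and `y` are sums of `r` terms `u_l t^(m_l) ∏_i F_i(t)^(e_il)`, `w_l t^(m_l) ∏_i F_i(t)^(e_il)`
with integers `u_l`, `w_l` of absolute value at most `H`, arbitrary natural numbers `m_l`,
polynomials `F_i` of total degree at most `D` with integer coefficients of absolute value at most
`H` and leading coefficients `± 1`, and `∑_i e_il ≤ N`. -/
def Sums (t : ℕ) (r D N H : ℕ) (x y : ℤ) : Prop :=
  ∃ (q : ℕ) (F : Fin q → ℤ[X]) (m : Fin r → ℕ) (e : Fin r → Fin q → ℕ) (u w : Fin r → ℤ),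
    ∑ i, (F i).natDegree ≤ D ∧ (∀ i, |(F i).leadingCoeff| = 1) ∧
    (∀ i j, |(F i).coeff j| ≤ H) ∧ (∀ l, ∑ i, e l i ≤ N) ∧
    (∀ l, |u l| ≤ H) ∧ (∀ l, |w l| ≤ H) ∧
    x = ∑ l, u l * ((t : ℤ) ^ m l * ∏ i, (F i).eval (t : ℤ) ^ e l i) ∧
    y = ∑ l, w l * ((t : ℤ) ^ m l * ∏ i, (F i).eval (t : ℤ) ^ e l i)

/-- The exponent: `(D + 5) 4 ^ ((d + 1) ^ r)`. -/
def C₀ (r d D : ℕ) : ℕ := (D + 5) * 4 ^ ((d + 1) ^ r)

/-- `2 (r + 1) (d + 1) H N`. -/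
def Z₀ (r d N H : ℕ) : ℕ := 2 * (r + 1) * (d + 1) * H * N

open Pool.Agent.Q29.SE Pool.Agent.Q103.SD in
theorem general (n m : ℕ) (hn : 2 ≤ n) (hm : 2 ≤ m) (r D N H : ℕ) (hr : 1 ≤ r) (hN : 1 ≤ N)
    (hH : 1 ≤ H) (t : ℕ) {Y : ℝ}
    (hY : YY r (max n m) D N 2 H H ≤ Y)
    (ht : 4 * Y * (((max n m * N : ℕ) : ℝ) * H) ≤ t)
    (x y : ℤ) (hk : x ^ n ≠ y ^ m) (hpow : Sums t r D N H x y) :
    (|(x : ℝ)| ≤ 2 * Y ∧ |(y : ℝ)| ≤ 2 * Y) ∨
    (|(x : ℝ)| ^ (m * n - m - n) * (t : ℝ) ^ m ≤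
        (2 * Y) ^ (m * n - m - n) * (2 * |((x ^ n - y ^ m : ℤ) : ℝ)|) ^ m ∧
      |(y : ℝ)| ^ (m * n - m - n) * (t : ℝ) ^ n ≤
        (2 * Y) ^ (m * n - m - n) * (2 * |((x ^ n - y ^ m : ℤ) : ℝ)|) ^ n) := by
  obtain ⟨q, P, mm, e, u, w, hD, hlc, hPH, heN, hu, hw, hx, hy⟩ := hpow
  obtain ⟨v, hv⟩ : ∃ v : Fin r → Fin 2 → ℤ, v = fun l => ![u l, w l] := ⟨_, rfl⟩
  have hvH : ∀ l i, |((v l i : ℤ) : ℝ)| ≤ H := by
    intro l i
    have h1 : |(v l i : ℤ)| ≤ H := by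
      rw [hv]
      fin_cases i
      · simpa using hu l
      · simpa using hw l
    exact_mod_cast h1
  have h1 : ∀ i, (pt P mm e v i).eval (t : ℤ) =
      ∑ l, v l i * ((t : ℤ) ^ mm l * ∏ i, (P i).eval (t : ℤ) ^ e l i) := by
    intro i
    unfold pt
    rw [eval_finsetSum]
    refine Finset.sum_congr rfl fun l _ => ?_
    rw [eval_mul, eval_C, eval_MP, one_mul]
  refine hall_ps hn hm hr hD (by exact_mod_cast hH) hlc (fun i j => by exact_mod_cast hPH i j)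
    mm e hN heN v hvH t hY ht x y ?_ ?_ hk
  · rw [h1, hv]
    simpa using hx
  · rw [h1, hv]
    simpa using hy

theorem result (r D N H : ℕ) (hr : 1 ≤ r) (hN : 1 ≤ N) (hH : 1 ≤ H) :
    (∀ t : ℕ, Z₀ r 3 N H ^ C₀ r 3 D ≤ t → ∀ x y k : ℤ, Sums t r D N H x y → k ≠ 0 →
      y ^ 2 = x ^ 3 + k →
      (|x| ≤ Z₀ r 3 N H ^ C₀ r 3 D ∧ |y| ≤ Z₀ r 3 N H ^ C₀ r 3 D) ∨
      (|x| * t ≤ |k| ^ 2 ∧ |y| * t ^ 2 ≤ |k| ^ 3)) ∧
    ∀ (n m : ℕ), 2 ≤ n → 2 ≤ m → ∀ t : ℕ, Z₀ r (max n m) N H ^ C₀ r (max n m) D ≤ t →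
      ∀ x y : ℤ, Sums t r D N H x y → x ^ n ≠ y ^ m →
      (|x| ≤ Z₀ r (max n m) N H ^ C₀ r (max n m) D ∧
        |y| ≤ Z₀ r (max n m) N H ^ C₀ r (max n m) D) ∨
      (|x| ^ (m * n - m - n) * t ^ m ≤
          ((Z₀ r (max n m) N H ^ C₀ r (max n m) D : ℕ) : ℤ) ^ (m * n) * |x ^ n - y ^ m| ^ m ∧
        |y| ^ (m * n - m - n) * t ^ n ≤
          ((Z₀ r (max n m) N H ^ C₀ r (max n m) D : ℕ) : ℤ) ^ (m * n) * |x ^ n - y ^ m| ^ n) := by
  have hH' : (1 : ℝ) ≤ H := by exact_mod_cast hH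
  have hE : ∀ d, 2 ≤ d → Pool.Agent.Q29.SE.expo r d D + 4 ≤ C₀ r d D := by
    intro d hd
    unfold C₀ Pool.Agent.Q29.SE.expo
    have h1 : 4 ≤ 4 ^ ((d + 1) ^ r) := by
      calc 4 = 4 ^ 1 := by norm_num
        _ ≤ 4 ^ ((d + 1) ^ r) := Nat.pow_le_pow_right (by norm_num) (Nat.one_le_pow _ _ (by omega))
    have h2 : (D + 5) * 4 ^ ((d + 1) ^ r) = (D + 4) * 4 ^ ((d + 1) ^ r) + 4 ^ ((d + 1) ^ r) := by
      ring
    omega
  have hZc : ∀ d, ((Z₀ r d N H : ℕ) : ℝ) = 2 * ((r : ℝ) + 1) * (d + 1) * H * N := by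
    intro d
    unfold Z₀
    push_cast
    ring
  have hZ8 : ∀ d, 2 ≤ d → 8 ≤ ((Z₀ r d N H : ℕ) : ℝ) := by
    intro d hd
    have : 8 ≤ Z₀ r d N H := by
      unfold Z₀
      calc 8 ≤ 2 * (1 + 1) * (2 + 1) * 1 * 1 := by norm_num
        _ ≤ _ := by gcongr
    exact_mod_cast this
  -- the bounds with `Y = Z ^ (expo + 1)`
  have hb : ∀ d, 2 ≤ d → Pool.Agent.Q29.SE.YY r d D N 2 H H ≤
      ((Z₀ r d N H : ℕ) : ℝ) ^ (Pool.Agent.Q29.SE.expo r d D + 1) ∧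
      8 * ((Z₀ r d N H : ℕ) : ℝ) ^ (Pool.Agent.Q29.SE.expo r d D + 1) * (((d * N : ℕ) : ℝ) * H) ≤
      ((Z₀ r d N H : ℕ) : ℝ) ^ (Pool.Agent.Q29.SE.expo r d D + 3) := by
    intro d hd
    rw [hZc]
    exact Pool.Agent.Q29.SE.YY_le hr hd hN hH'
  -- a common treatment
  have main : ∀ (n m : ℕ), 2 ≤ n → 2 ≤ m → ∀ t : ℕ, Z₀ r (max n m) N H ^ C₀ r (max n m) D ≤ t →
      ∀ x y : ℤ, Sums t r D N H x y → x ^ n ≠ y ^ m → ∃ Y : ℝ, 1 ≤ Y ∧
      16 * Y ≤ ((Z₀ r (max n m) N H ^ C₀ r (max n m) D : ℕ) : ℝ) ∧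
      16 * Y ≤ t ∧
      ((|(x : ℝ)| ≤ 2 * Y ∧ |(y : ℝ)| ≤ 2 * Y) ∨
        (|(x : ℝ)| ^ (m * n - m - n) * (t : ℝ) ^ m ≤
            (2 * Y) ^ (m * n - m - n) * (2 * |((x ^ n - y ^ m : ℤ) : ℝ)|) ^ m ∧
          |(y : ℝ)| ^ (m * n - m - n) * (t : ℝ) ^ n ≤
            (2 * Y) ^ (m * n - m - n) * (2 * |((x ^ n - y ^ m : ℤ) : ℝ)|) ^ n)) := by
    intro n m hn hm t ht x y hpow hk
    have hd : 2 ≤ max n m := le_trans hn (le_max_left n m)
    obtain ⟨d, hdd⟩ : ∃ d, d = max n m := ⟨_, rfl⟩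
    rw [← hdd] at hd ht ⊢
    obtain ⟨h1, h2⟩ := hb d hd
    have hZ := hZ8 d hd
    have hE' := hE d hd
    obtain ⟨Y, hYd⟩ : ∃ Y, Y = ((Z₀ r d N H : ℕ) : ℝ) ^ (Pool.Agent.Q29.SE.expo r d D + 1) :=
      ⟨_, rfl⟩
    rw [← hYd] at h1 h2
    have hY1 : 1 ≤ Y := by
      rw [hYd]
      exact one_le_pow₀ (by linarith)
    have h3 : ((Z₀ r d N H : ℕ) : ℝ) ^ (Pool.Agent.Q29.SE.expo r d D + 4) ≤
        ((Z₀ r d N H ^ C₀ r d D : ℕ) : ℝ) := by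
      push_cast
      exact pow_le_pow_right₀ (by linarith) hE'
    have h4 : ((Z₀ r d N H ^ C₀ r d D : ℕ) : ℝ) ≤ t := by exact_mod_cast ht
    have h5 : 16 * Y ≤ ((Z₀ r d N H : ℕ) : ℝ) ^ (Pool.Agent.Q29.SE.expo r d D + 4) := by
      have e1 : ((Z₀ r d N H : ℕ) : ℝ) ^ (Pool.Agent.Q29.SE.expo r d D + 4) =
          ((Z₀ r d N H : ℕ) : ℝ) ^ 3 * Y := by
        rw [hYd, ← pow_add]
        congr 1
        omega
      rw [e1]
      have e2 : (16 : ℝ) ≤ ((Z₀ r d N H : ℕ) : ℝ) ^ 3 := by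
        calc (16 : ℝ) ≤ 8 ^ 3 := by norm_num
          _ ≤ _ := by gcongr
      exact mul_le_mul_of_nonneg_right e2 (by linarith)
    refine ⟨Y, hY1, h5.trans h3, (h5.trans h3).trans h4, ?_⟩
    refine general n m hn hm r D N H hr hN hH t (Y := Y) (by rw [← hdd]; exact h1) ?_ x y hk hpow
    rw [← hdd]
    have h6 : 0 ≤ Y * (((d * N : ℕ) : ℝ) * H) := by positivity
    have h7 : ((Z₀ r d N H : ℕ) : ℝ) ^ (Pool.Agent.Q29.SE.expo r d D + 3) ≤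
        ((Z₀ r d N H : ℕ) : ℝ) ^ (Pool.Agent.Q29.SE.expo r d D + 4) :=
      pow_le_pow_right₀ (by linarith) (by omega)
    linarith
  refine ⟨?_, ?_⟩
  · intro t ht x y k hpow hk0 hxy
    have hk : x ^ 3 ≠ y ^ 2 := by
      intro h
      apply hk0
      rw [h] at hxy
      linarith
    have hmax : max 3 2 = 3 := rfl
    obtain ⟨Y, hY1, hYZ, hYt, h | h⟩ := main 3 2 (by norm_num) (by norm_num) t
      (by rw [hmax]; exact ht) x y hpow hk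
    · left
      rw [hmax] at hYZ
      constructor
      · have : |(x : ℝ)| ≤ ((Z₀ r 3 N H ^ C₀ r 3 D : ℕ) : ℝ) := by linarith [h.1]
        exact_mod_cast this
      · have : |(y : ℝ)| ≤ ((Z₀ r 3 N H ^ C₀ r 3 D : ℕ) : ℝ) := by linarith [h.2]
        exact_mod_cast this
    · right
      have hkk : |((x ^ 3 - y ^ 2 : ℤ) : ℝ)| = |(k : ℝ)| := by
        have h5 : x ^ 3 - y ^ 2 = -k := by linarith
        rw [h5, Int.cast_neg, abs_neg]
      rw [hkk] at h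
      norm_num at h
      obtain ⟨h1, h2⟩ := h
      have ht0 : (0 : ℝ) < t := by linarith
      have hkn : 0 ≤ |(k : ℝ)| := abs_nonneg _
      constructor
      · have h3 : |(x : ℝ)| * t ≤ |(k : ℝ)| ^ 2 := by
          have h4 : |(x : ℝ)| * t * t ≤ |(k : ℝ)| ^ 2 * t := by
            have h5 : 2 * Y * (2 * |(k : ℝ)|) ^ 2 = (8 * Y) * |(k : ℝ)| ^ 2 := by ring
            rw [h5] at h1
            have h6 : (8 * Y) * |(k : ℝ)| ^ 2 ≤ t * |(k : ℝ)| ^ 2 :=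
              mul_le_mul_of_nonneg_right (by linarith) (by positivity)
            calc |(x : ℝ)| * t * t = |(x : ℝ)| * (t : ℝ) ^ 2 := by ring
              _ ≤ _ := h1
              _ ≤ _ := h6
              _ = _ := by ring
          exact le_of_mul_le_mul_right h4 ht0
        exact_mod_cast h3
      · have h3 : |(y : ℝ)| * (t : ℝ) ^ 2 ≤ |(k : ℝ)| ^ 3 := by
          have h4 : |(y : ℝ)| * (t : ℝ) ^ 2 * t ≤ |(k : ℝ)| ^ 3 * t := by
            have h5 : 2 * Y * (2 * |(k : ℝ)|) ^ 3 = (16 * Y) * |(k : ℝ)| ^ 3 := by ring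
            rw [h5] at h2
            have h6 : (16 * Y) * |(k : ℝ)| ^ 3 ≤ t * |(k : ℝ)| ^ 3 :=
              mul_le_mul_of_nonneg_right (by linarith) (by positivity)
            calc |(y : ℝ)| * (t : ℝ) ^ 2 * t = |(y : ℝ)| * (t : ℝ) ^ 3 := by ring
              _ ≤ _ := h2
              _ ≤ _ := h6
              _ = _ := by ring
          exact le_of_mul_le_mul_right h4 ht0
        exact_mod_cast h3
  · intro n m hn hm t ht x y hpow hk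
    obtain ⟨Y, hY1, hYZ, hYt, h | h⟩ := main n m hn hm t ht x y hpow hk
    · left
      constructor
      · have : |(x : ℝ)| ≤ ((Z₀ r (max n m) N H ^ C₀ r (max n m) D : ℕ) : ℝ) := by linarith [h.1]
        exact_mod_cast this
      · have : |(y : ℝ)| ≤ ((Z₀ r (max n m) N H ^ C₀ r (max n m) D : ℕ) : ℝ) := by linarith [h.2]
        exact_mod_cast this
    · right
      obtain ⟨Z, hZd⟩ : ∃ Z : ℕ, Z = Z₀ r (max n m) N H ^ C₀ r (max n m) D := ⟨_, rfl⟩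
      rw [← hZd] at hYZ ⊢
      obtain ⟨M, hM⟩ : ∃ M, M = m * n - m - n := ⟨_, rfl⟩
      rw [← hM] at h ⊢
      have hZ1 : (1 : ℝ) ≤ Z := by linarith
      have hYZ2 : 2 * Y ≤ (Z : ℝ) := by linarith
      have h2Z : (2 : ℝ) ≤ (Z : ℝ) := by linarith
      have hsum : ∀ j, M + j ≤ m * n → (2 * Y) ^ M * (2 * |((x ^ n - y ^ m : ℤ) : ℝ)|) ^ j ≤
          (Z : ℝ) ^ (m * n) * |((x ^ n - y ^ m : ℤ) : ℝ)| ^ j := by
        intro j hj
        rw [mul_pow 2 |((x ^ n - y ^ m : ℤ) : ℝ)| j, ← mul_assoc]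
        apply mul_le_mul_of_nonneg_right _ (by positivity)
        calc (2 * Y) ^ M * 2 ^ j ≤ (Z : ℝ) ^ M * (Z : ℝ) ^ j := by gcongr
          _ = (Z : ℝ) ^ (M + j) := by rw [pow_add]
          _ ≤ _ := pow_le_pow_right₀ hZ1 hj
      have hmn : m ≤ m * n := Nat.le_mul_of_pos_right _ (by omega)
      have hnm : n ≤ m * n := Nat.le_mul_of_pos_left _ (by omega)
      constructor
      · have h3 := h.1.trans (hsum m (by omega))
        exact_mod_cast h3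
      · have h3 := h.2.trans (hsum n (by omega))
        exact_mod_cast h3

end Pool.Agent.Results.MP_f2148a_nt.PowerSums
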