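import Mathlib
import Pool.Agent.Q84.MB.F6
import Pool.Agent.Results.MP_f2148a_nt.AlmostAllK

/-!
# Mordell's equation `y² = x³ + l p` for the primes `p` of a string

For every `m` there is a `c > 0` and for every `Z` a number `C` such that for every large `X` there is a set `S` of at
most `(log X) ^ (49 / 50)` primes, all larger than `Z`, such that for EVERY function `f` with values `1` and `-1` on
the primes at least `X ^ (1 - 1 / 400)` integers `n`, `X < n ≤ 3X`, satisfy: the interval `[n, n + C]` contains at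
least `m` primes, and for every prime `p` in it

* the symbol `(p / q)` is `f q` for all odd primes `q ≤ c log X` outside `S`; so if `f q = 1` the congruence
  `y ^ 2 ≡ x ^ 3 + p` modulo `q` has a solution with `x = 0`;
* for ALL `0 < |l| ≤ p ^ (1 / 200)` the equation `y ^ 2 = x ^ 3 + l p` has no solution in integers with
  `|x| ≤ exp (p ^ (1 / 10000))`.
-/

set_option autoImplicit false

open scoped Classical

namespace Pool.Agent.Results.MP_f2148a_nt.StringsOfPrimes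

open Finset Filter

/-- no solution with `|x| ≤ exp (p ^ (1 / 10000))` for all `k = l p`, `0 < |l| ≤ p ^ (1 / 200)` -/
def Good (p : ℕ) : Prop :=
  ∀ l x y : ℤ, l ≠ 0 → |(l : ℝ)| ≤ (p : ℝ) ^ (1 / 200 : ℝ) → y ^ 2 = x ^ 3 + l * p →
    Real.exp ((p : ℝ) ^ (1 / 10000 : ℝ)) < |(x : ℝ)|

lemma few : ∀ᶠ X : ℝ in atTop, ∀ P : Finset ℕ, (∀ p ∈ P, p.Prime ∧ X < p ∧ (p : ℝ) ≤ 4 * X ∧ ¬ Good p) →
      (P.card : ℝ) ≤ X ^ (1 - 1 / 400 : ℝ) := by
  obtain ⟨M, hM⟩ := Pool.Agent.Results.MP_f2148a_nt.AlmostAllK.result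
  have h1 := Pool.Agent.Q84.MB.mult_bad (201 / 200) (99 / 100) (1 - 1 / 400) (by norm_num) (by norm_num)
    (by norm_num) M 1 (fun x => {k : ℤ | ∃ x' y : ℤ, y ^ 2 = x' ^ 3 + k ∧
      |(x' : ℝ)| ≤ Real.exp ((x : ℝ) ^ ((1 : ℝ) / 10000))}) (fun x hx => by
    have h2 := hM x (by exact_mod_cast hx)
    refine le_trans (le_of_eq ?_) h2
    congr 2
    ext k
    simp only [Set.mem_ofPred_eq]
    refine and_congr_right fun _ => and_congr_left fun _ => ?_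
    rw [← Int.cast_abs]
    exact_mod_cast Iff.rfl)
  filter_upwards [h1, eventually_ge_atTop (1 : ℝ)] with X hX hX1
  intro P hP
  refine hX P fun p hp => ?_
  obtain ⟨hpp, hXp, hp4, hg⟩ := hP p hp
  unfold Good at hg
  push Not at hg
  obtain ⟨l, x, y, hl0, hl, hxy, hx⟩ := hg
  have hp0 : (0 : ℝ) < p := by linarith
  have hb : (4 * X) ^ (201 / 200 : ℝ) = (4 * X) ^ (1 / 200 : ℝ) * (4 * X) := by
    rw [← Real.rpow_add_one (by positivity)]
    norm_num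
  refine ⟨hpp, hXp, l * p, mul_ne_zero hl0 (by exact_mod_cast hpp.pos.ne'), Dvd.intro_left l rfl, ?_, x, y, hxy, ?_⟩
  · push_cast
    rw [abs_mul, abs_of_pos hp0, hb]
    apply mul_le_mul _ hp4 hp0.le (by positivity)
    exact hl.trans (Real.rpow_le_rpow hp0.le hp4 (by norm_num))
  · refine hx.trans (Real.exp_le_exp.2 ?_)
    apply Real.rpow_le_rpow hp0.le _ (by norm_num)
    have h4 : (p : ℝ) ≤ (4 * X) ^ (201 / 200 : ℝ) := by
      rw [hb]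
      have : 1 ≤ (4 * X) ^ (1 / 200 : ℝ) := Real.one_le_rpow (by linarith) (by norm_num)
      nlinarith
    have h5 : p ≤ ⌊(4 * X) ^ (201 / 200 : ℝ)⌋₊ := Nat.le_floor h4
    exact_mod_cast h5

theorem result (m : ℕ) : ∃ c : ℝ, 0 < c ∧ ∀ Z : ℕ, ∃ C : ℕ, ∃ X₀ : ℝ, ∀ X : ℝ, X₀ ≤ X →
    ∃ S : Finset ℕ, (∀ q ∈ S, q.Prime ∧ Z < q) ∧ (S.card : ℝ) ≤ (Real.log X) ^ (49 / 50 : ℝ) ∧
    ∀ f : ℕ → ℤ, (∀ q, f q = 1 ∨ f q = -1) →
      X ^ (1 - 1 / 400 : ℝ) ≤ (((Icc 1 ⌊3 * X⌋₊).filter fun n : ℕ => X < n ∧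
        m ≤ ((Icc n (n + C)).filter Nat.Prime).card ∧
        ∀ p ∈ Icc n (n + C), p.Prime → Good p ∧
          ∀ q : ℕ, q.Prime → q ≠ 2 → (q : ℝ) ≤ c * Real.log X → q ∉ S →
            jacobiSym p q = f q ∧ (f q = 1 → ∃ y : ℤ, y ^ 2 ≡ 0 ^ 3 + p [ZMOD q])).card : ℝ) := by
  obtain ⟨c, hc, hmain⟩ := Pool.Agent.Q84.MB.sym_strings m (1 / 400) (by norm_num)
  refine ⟨c, hc, fun Z => ?_⟩
  obtain ⟨C, hC⟩ := hmain Z
  obtain ⟨X₀, hX₀⟩ := eventually_atTop.1 ((hC.and few).and (eventually_ge_atTop (1 : ℝ)))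
  refine ⟨C, X₀, fun X hX => ?_⟩
  obtain ⟨⟨⟨S, hS1, hS2, hS3⟩, hbad⟩, hX1⟩ := hX₀ X hX
  refine ⟨S, hS1, hS2, fun f hf => ?_⟩
  have hP : (((Icc 1 ⌊4 * X⌋₊).filter fun p : ℕ => p.Prime ∧ X < p ∧ ¬ Good p).card : ℝ) ≤
      X ^ (1 - 1 / 400 : ℝ) := by
    refine hbad _ fun p hp => ?_
    rw [mem_filter, mem_Icc] at hp
    obtain ⟨⟨-, h1⟩, h2, h3, h4⟩ := hp
    exact ⟨h2, h3, (Nat.le_floor_iff (by linarith)).1 h1, h4⟩
  have h3 := hS3 f hf Good hP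
  refine h3.trans ?_
  have hsub : ((Icc 1 ⌊3 * X⌋₊).filter fun n : ℕ => X < n ∧
        Pool.Agent.Q84.MB.SymStr m C (c * Real.log X) S f Good n) ⊆
      ((Icc 1 ⌊3 * X⌋₊).filter fun n : ℕ => X < n ∧
        m ≤ ((Icc n (n + C)).filter Nat.Prime).card ∧
        ∀ p ∈ Icc n (n + C), p.Prime → Good p ∧
          ∀ q : ℕ, q.Prime → q ≠ 2 → (q : ℝ) ≤ c * Real.log X → q ∉ S →
            jacobiSym p q = f q ∧ (f q = 1 → ∃ y : ℤ, y ^ 2 ≡ 0 ^ 3 + p [ZMOD q])) := by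
    intro n hn
    rw [mem_filter] at hn ⊢
    obtain ⟨h4, h5, h6, h7⟩ := hn
    refine ⟨h4, h5, h6, fun p hp hpp => ⟨(h7 p hp hpp).1, fun q hq hq2 hqy hqS => ?_⟩⟩
    have h8 := (h7 p hp hpp).2 q hq hq2 hqy hqS
    refine ⟨h8, fun h9 => ?_⟩
    have : Fact q.Prime := ⟨hq⟩
    rw [h9, ← jacobiSym.legendreSym.to_jacobiSym] at h8
    have hq0 : ((p : ℤ) : ZMod q) ≠ 0 := by
      intro h
      rw [(legendreSym.eq_zero_iff q (p : ℤ)).2 h] at h8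
      exact absurd h8 (by decide)
    obtain ⟨z, hz⟩ := (legendreSym.eq_one_iff q hq0).1 h8
    refine ⟨(z.val : ℤ), ?_⟩
    rw [← ZMod.intCast_eq_intCast_iff]
    push_cast
    rw [ZMod.natCast_zmod_val]
    push_cast at hz
    rw [hz]
    ring
  exact_mod_cast card_le_card hsub

end Pool.Agent.Results.MP_f2148a_nt.StringsOfPrimes
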